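import Pool.Agent.W554.SP.GC
import Pool.Agent.W798.SP.Stm2

/-!
# SPY-GC2: the conditional Gibbs inequality with a varying bound
-/

set_option autoImplicit false
set_option linter.unusedSectionVars false

open Finset
open scoped Classical

namespace Pool.Agent.W756.SPY

open Pool.Agent.W904.AK Pool.Agent.W798.SP Pool.Agent.W554.SPX

theorem t_GC2 : S_GC2 := by
  intro Ω γ α β _ p Q f g F G d B hp hs hB
  rw [CH_eq_sum hp, CH_eq_sum hp, Finset.mul_sum, Finset.mul_sum, ← Finset.sum_sub_distrib]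
  refine Finset.sum_le_sum fun x _ => ?_
  by_cases hx : p x = 0
  · simp [hx]
  have hq : IsLaw (cd p Q (Q x)) := cd_law hp Q (im_pos hp Q hx).ne'
  have hsupp : ∀ y, cd p Q (Q x) y ≠ 0 → Q y = Q x ∧ p y ≠ 0 := by
    intro y hy
    unfold cd at hy
    by_cases h1 : Q y = Q x
    · refine ⟨h1, fun h2 => hy ?_⟩
      rw [if_pos h1, h2, zero_div]
    · exact absurd (if_neg h1) hy
  have h := step1 hq f g (F (Q x)) (G (Q x)) d (B (Q x)) (fun y hy => by
    obtain ⟨h1, h2⟩ := hsupp y hy
    rw [← h1]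
    exact hs y h2) (hB x hx)
  have h3 := mul_le_mul_of_nonneg_left h (hp.nonneg x)
  linarith

end Pool.Agent.W756.SPY
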